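import Mathlib
import Pool.Agent.Results.MP_365e45_an.WeightedDivergence
import Pool.Agent.Y295.WD

/-!
# MP_365e45_an, Q1 (negated form), almost everywhere and for a dense set of pairs

There are an integer valued weight `w ≥ 1` which is admissible and satisfies the Fourier
approximation condition (both with a power saving, and with `M = 1`) and an invertible
measure-preserving system such that for all `p, q ≥ 1` with `1/p + 1/q ≥ 99/50` the weighted
bilinear averages are unbounded at almost every point, for a dense set of pairs `(f, g)` in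
`L^p × L^q`.
-/

open MeasureTheory Filter Topology
open scoped ENNReal ComplexConjugate

namespace Pool.Agent.Results.MP_365e45_an.DenseDivergence

open Pool.H359R3.W Pool.Agent.Results.MP_365e45_an.WeightedDivergence Pool.Agent.Y295.WD

/-- `a + δ b + δ² c` is bounded for at most two values of `δ` if `c` is unbounded. -/
theorem three_points (a b c : ℕ → ℂ) (hc : ∀ R : ℝ, ∃ᶠ N : ℕ in atTop, R ≤ ‖c N‖)
    (x y z : ℝ) (hxy : x ≠ y) (hxz : x ≠ z) (hyz : y ≠ z)
    (h : ∀ t : ℝ, t = x ∨ t = y ∨ t = z →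
      ∃ R : ℝ, ∀ᶠ N : ℕ in atTop, ‖a N + t * b N + t ^ 2 * c N‖ < R) : False := by
  obtain ⟨R₁, h₁⟩ := h x (Or.inl rfl)
  obtain ⟨R₂, h₂⟩ := h y (Or.inr (Or.inl rfl))
  obtain ⟨R₃, h₃⟩ := h z (Or.inr (Or.inr rfl))
  set V : ℂ := ((x : ℂ) - y) * ((y : ℂ) - z) * ((x : ℂ) - z) with hV
  have e1 : (x : ℂ) - y ≠ 0 := sub_ne_zero.2 (by exact_mod_cast hxy)
  have e2 : (y : ℂ) - z ≠ 0 := sub_ne_zero.2 (by exact_mod_cast hyz)
  have e3 : (x : ℂ) - z ≠ 0 := sub_ne_zero.2 (by exact_mod_cast hxz)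
  have hV0 : 0 < ‖V‖ := norm_pos_iff.2 (mul_ne_zero (mul_ne_zero e1 e2) e3)
  set K : ℝ := ‖(y : ℂ) - z‖ * R₁ + ‖(x : ℂ) - z‖ * R₂ + ‖(x : ℂ) - y‖ * R₃ with hK
  obtain ⟨N, hN, n1, n2, n3⟩ := ((hc (K / ‖V‖ + 1)).and_eventually (h₁.and (h₂.and h₃))).exists
  have key : V * c N = ((y : ℂ) - z) * (a N + x * b N + x ^ 2 * c N)
      - ((x : ℂ) - z) * (a N + y * b N + y ^ 2 * c N)
      + ((x : ℂ) - y) * (a N + z * b N + z ^ 2 * c N) := by
    rw [hV]
    ring
  have h4 : ‖V‖ * ‖c N‖ ≤ K := by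
    rw [← norm_mul, key]
    refine (norm_add_le _ _).trans ?_
    refine (add_le_add_left (norm_sub_le _ _) _).trans ?_
    rw [norm_mul, norm_mul, norm_mul, hK]
    gcongr
  have h5 : ‖c N‖ ≤ K / ‖V‖ := by
    rw [le_div_iff₀ hV0]
    linarith
  linarith

theorem bilin_expand {X : Type} [MeasurableSpace X] (w : ℤ → ℂ) (T : X ≃ᵐ X) (f g F G : X → ℂ)
    (t : ℝ) (N : ℕ) (x : X) :
    bilin w T (fun x => f x + t * F x) (fun x => g x + t * G x) N x =
      bilin w T f g N x + t * (bilin w T f G N x + bilin w T F g N x)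
        + t ^ 2 * bilin w T F G N x := by
  unfold bilin
  simp only [Finset.mul_sum, ← Finset.sum_add_distrib]
  apply Finset.sum_congr rfl
  intro n _
  ring

theorem bilin_meas {X : Type} [MeasurableSpace X] (w : ℤ → ℂ) (T : X ≃ᵐ X) (f g : X → ℂ)
    (hf : Measurable f) (hg : Measurable g) (N : ℕ) : Measurable (bilin w T f g N) := by
  unfold bilin
  apply Measurable.const_mul
  apply Finset.measurable_fun_sum
  intro n _
  apply Measurable.const_mul
  exact (hf.comp (T.measurable.iterate n)).mul (hg.comp (T.symm.measurable.iterate n))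

/-- from one pair with unbounded averages to a dense set of pairs -/
theorem dense_of_one {X : Type} [MeasurableSpace X] (μ : Measure X) [IsProbabilityMeasure μ]
    (w : ℤ → ℂ) (T : X ≃ᵐ X) (p q : ℝ≥0∞) (F G : X → ℂ) (hFm : Measurable F) (hGm : Measurable G)
    (hF : MemLp F p μ) (hG : MemLp G q μ)
    (hFG : ∀ᵐ x ∂μ, ∀ R : ℝ, ∃ᶠ N : ℕ in atTop, R ≤ ‖bilin w T F G N x‖)
    (f₀ g₀ : X → ℂ) (hf₀ : MemLp f₀ p μ) (hg₀ : MemLp g₀ q μ) (ε : ℝ) (hε : 0 < ε) :
    ∃ f g : X → ℂ, MemLp f p μ ∧ MemLp g q μ ∧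
      eLpNorm (f - f₀) p μ ≤ ENNReal.ofReal ε ∧ eLpNorm (g - g₀) q μ ≤ ENNReal.ofReal ε ∧
      ∀ᵐ x ∂μ, ∀ R : ℝ, ∃ᶠ N : ℕ in atTop, R ≤ ‖bilin w T f g N x‖ := by
  classical
  obtain ⟨f₁, hf₁m, hf₁⟩ := hf₀.1
  obtain ⟨g₁, hg₁m, hg₁⟩ := hg₀.1
  set fd : ℝ → X → ℂ := fun t x => f₁ x + t * F x with hfd
  set gd : ℝ → X → ℂ := fun t x => g₁ x + t * G x with hgd
  have hfm : ∀ t, Measurable (fd t) := fun t =>
    hf₁m.measurable.add (hFm.const_mul _)
  have hgm : ∀ t, Measurable (gd t) := fun t =>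
    hg₁m.measurable.add (hGm.const_mul _)
  set E : ℝ → Set X := fun t => {x | ∃ R : ℕ, ∃ N₀ : ℕ, ∀ N : ℕ, N₀ ≤ N →
    ‖bilin w T (fd t) (gd t) N x‖ ≤ R} with hE
  have hEm : ∀ t, MeasurableSet (E t) := by
    intro t
    have h1 : E t = ⋃ R : ℕ, ⋃ N₀ : ℕ, ⋂ N : ℕ, ⋂ (_ : N₀ ≤ N),
        {x | ‖bilin w T (fd t) (gd t) N x‖ ≤ R} := by
      ext x
      simp [hE]
    rw [h1]
    refine MeasurableSet.iUnion fun R => MeasurableSet.iUnion fun N₀ =>
      MeasurableSet.iInter fun N => MeasurableSet.iInter fun _ => ?_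
    exact measurableSet_le (bilin_meas w T _ _ (hfm t) (hgm t) N).norm measurable_const
  have hEnot : ∀ t x, x ∉ E t → ∀ R : ℝ, ∃ᶠ N : ℕ in atTop,
      R ≤ ‖bilin w T (fd t) (gd t) N x‖ := by
    intro t x hx R
    by_contra hc
    rw [not_frequently] at hc
    apply hx
    obtain ⟨N₀, hN₀⟩ := eventually_atTop.1 hc
    refine ⟨⌈R⌉₊, N₀, fun N hN => ?_⟩
    have := hN₀ N hN
    push Not at this
    exact this.le.trans (Nat.le_ceil R)
  -- at most two values of `t` are bad at almost every point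
  have hcount : ∀ s : Finset ℝ, ∑ t ∈ s, μ (E t) ≤ 2 := by
    intro s
    have h1 : ∑ t ∈ s, μ (E t) = ∫⁻ x, ∑ t ∈ s, (E t).indicator (fun _ => (1 : ℝ≥0∞)) x ∂μ := by
      rw [lintegral_finsetSum]
      · apply Finset.sum_congr rfl
        intro t _
        rw [lintegral_indicator_const (hEm t), one_mul]
      · intro t _
        exact measurable_const.indicator (hEm t)
    rw [h1]
    have h2 : ∀ᵐ x ∂μ, ∑ t ∈ s, (E t).indicator (fun _ => (1 : ℝ≥0∞)) x ≤ 2 := by
      filter_upwards [hFG] with x hx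
      have h3 : ∑ t ∈ s, (E t).indicator (fun _ => (1 : ℝ≥0∞)) x
          = ((s.filter (fun t => x ∈ E t)).card : ℝ≥0∞) := by
        rw [Finset.card_filter]
        push_cast
        apply Finset.sum_congr rfl
        intro t _
        by_cases h : x ∈ E t <;> simp [h]
      rw [h3]
      have h4 : (s.filter (fun t => x ∈ E t)).card ≤ 2 := by
        by_contra hc
        push Not at hc
        obtain ⟨t₁, t₂, t₃, m₁, m₂, m₃, d₁, d₂, d₃⟩ := Finset.two_lt_card_iff.1 hc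
        rw [Finset.mem_filter] at m₁ m₂ m₃
        refine three_points (fun N => bilin w T f₁ g₁ N x)
          (fun N => bilin w T f₁ G N x + bilin w T F g₁ N x) (fun N => bilin w T F G N x) hx
          t₁ t₂ t₃ d₁ d₂ d₃ ?_
        intro t ht
        have hxt : x ∈ E t := by
          rcases ht with rfl | rfl | rfl
          · exact m₁.2
          · exact m₂.2
          · exact m₃.2
        obtain ⟨R, N₀, hR⟩ := hxt
        refine ⟨R + 1, eventually_atTop.2 ⟨N₀, fun N hN => ?_⟩⟩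
        rw [← bilin_expand]
        have := hR N hN
        simp only [hfd, hgd] at this
        linarith
      exact_mod_cast h4
    calc ∫⁻ x, ∑ t ∈ s, (E t).indicator (fun _ => (1 : ℝ≥0∞)) x ∂μ ≤ ∫⁻ _, 2 ∂μ :=
          lintegral_mono_ae h2
      _ = 2 := by simp
  set A : ℝ := (eLpNorm F p μ).toReal + (eLpNorm G q μ).toReal + 1 with hA
  have hApos : 0 < A := by positivity
  set δ₀ : ℝ := ε / A with hδ₀
  have hδ₀pos : 0 < δ₀ := by positivity
  obtain ⟨t, ht, hμt⟩ : ∃ t ∈ Set.Ioo 0 δ₀, μ (E t) = 0 := by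
    by_contra hc
    push Not at hc
    have h1 : ∑' t : ℝ, μ (E t) ≤ 2 := by
      rw [ENNReal.tsum_eq_iSup_sum]
      exact iSup_le hcount
    have h2 := Summable.countable_support_ennreal (f := fun t : ℝ => μ (E t))
      (ne_top_of_le_ne_top (by norm_num) h1)
    have h3 : Set.Ioo 0 δ₀ ⊆ Function.support (fun t : ℝ => μ (E t)) := fun t ht => hc t ht
    have h4 := (h2.mono h3).measure_zero volume
    rw [Real.volume_Ioo, sub_zero, ENNReal.ofReal_eq_zero] at h4
    linarith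
  have hsmall : ∀ (H : X → ℂ) (r : ℝ≥0∞), MemLp H r μ → (eLpNorm H r μ).toReal ≤ A →
      eLpNorm (fun x => (t : ℂ) * H x) r μ ≤ ENNReal.ofReal ε := by
    intro H r hH hHA
    have h1 : (fun x => (t : ℂ) * H x) = (t : ℂ) • H := rfl
    rw [h1, eLpNorm_const_smul]
    have h2 : ‖(t : ℂ)‖ₑ = ENNReal.ofReal t := by
      rw [← ofReal_norm, Complex.norm_real, Real.norm_of_nonneg ht.1.le]
    rw [h2, ← ENNReal.ofReal_toReal hH.2.ne, ← ENNReal.ofReal_mul ht.1.le]
    apply ENNReal.ofReal_le_ofReal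
    calc t * (eLpNorm H r μ).toReal ≤ δ₀ * A :=
          mul_le_mul ht.2.le hHA ENNReal.toReal_nonneg hδ₀pos.le
      _ = ε := by rw [hδ₀]; field_simp
  refine ⟨fd t, gd t, ?_, ?_, ?_, ?_, ?_⟩
  · exact ((memLp_congr_ae hf₁).1 hf₀).add (hF.const_mul (t : ℂ))
  · exact ((memLp_congr_ae hg₁).1 hg₀).add (hG.const_mul (t : ℂ))
  · refine le_trans (le_of_eq ?_) (hsmall F p hF (by
      rw [hA]
      have : 0 ≤ (eLpNorm G q μ).toReal := ENNReal.toReal_nonneg
      linarith))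
    apply eLpNorm_congr_ae
    filter_upwards [hf₁] with x hx
    simp only [hfd, Pi.sub_apply, hx]
    ring
  · refine le_trans (le_of_eq ?_) (hsmall G q hG (by
      rw [hA]
      have : 0 ≤ (eLpNorm F p μ).toReal := ENNReal.toReal_nonneg
      linarith))
    apply eLpNorm_congr_ae
    filter_upwards [hg₁] with x hx
    simp only [hgd, Pi.sub_apply, hx]
    ring
  · have h1 : ∀ᵐ x ∂μ, x ∉ E t := by
      rw [ae_iff]
      simpa using hμt
    filter_upwards [h1] with x hx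
    exact hEnot t x hx

/-- **Negative answer to Q1, almost everywhere and for a dense set of pairs.** There are a weight
`w` with values in the positive integers, admissible and satisfying the Fourier approximation
condition with the data `S`, `M = 1`, and an invertible measure-preserving transformation `T` of a
probability space `X`, such that for all `p, q ≥ 1` with `1/p + 1/q ≥ 99/50`: there are `f, g ≥ 0`
in `L^p`, `L^q` such that the averages `B_{w,N}(f,g)(x)` are unbounded (in particular diverge) at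
almost every `x`; and such pairs `(f, g)` of complex functions are dense in `L^p × L^q`. Moreover
`w` satisfies `‖w - majorArcs‖_{U^3([N])} ≤ 8 N^{-1/64}` for `N ≥ 8`. -/
theorem result :
    ∃ (w : ℤ → ℂ) (S : ℚ → ℂ),
      (∀ n, ∃ k : ℕ, 1 ≤ k ∧ w n = k) ∧
      UpperNormalized w ∧ MajorArcApprox w S (fun _ => 1) ∧ FourierApprox w S (fun _ => 1) ∧
      (∀ N : ℕ, 8 ≤ N →
        gowersNorm 3 N (fun n => w n - majorArcs S 1 n) ≤ 8 * (N : ℝ) ^ (-((1 : ℝ) / 64))) ∧
      ∃ (X : Type) (_ : MeasurableSpace X) (μ : Measure X) (T : X ≃ᵐ X),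
        IsProbabilityMeasure μ ∧ MeasurePreserving T μ μ ∧
        ∀ p q : ℝ, 1 ≤ p → 1 ≤ q → 99 / 50 ≤ 1 / p + 1 / q →
          (∃ f g : X → ℝ, (∀ x, 0 ≤ f x) ∧ (∀ x, 0 ≤ g x) ∧
            MemLp f (ENNReal.ofReal p) μ ∧ MemLp g (ENNReal.ofReal q) μ ∧
            ∀ᵐ x ∂μ, ∀ R : ℝ, ∃ᶠ N : ℕ in atTop,
              R ≤ ‖bilin w T (fun x => (f x : ℂ)) (fun x => (g x : ℂ)) N x‖) ∧
          ∀ f₀ g₀ : X → ℂ, MemLp f₀ (ENNReal.ofReal p) μ → MemLp g₀ (ENNReal.ofReal q) μ →
            ∀ ε : ℝ, 0 < ε → ∃ f g : X → ℂ,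
              MemLp f (ENNReal.ofReal p) μ ∧ MemLp g (ENNReal.ofReal q) μ ∧
              eLpNorm (f - f₀) (ENNReal.ofReal p) μ ≤ ENNReal.ofReal ε ∧
              eLpNorm (g - g₀) (ENNReal.ofReal q) μ ≤ ENNReal.ofReal ε ∧
              ∀ᵐ x ∂μ, ∀ R : ℝ, ∃ᶠ N : ℕ in atTop, R ≤ ‖bilin w T f g N x‖ := by
  refine ⟨w, S0, ?_, upper, major, fourier, gowers_bound, XX, inferInstance, mu, TT, inferInstance,
    TT_mp, ?_⟩
  · intro n
    refine ⟨1 + gw n.toNat, by omega, ?_⟩
    unfold w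
    push_cast
    rfl
  · intro p q hp hq hpq
    obtain ⟨u, v, hu, hv, hup, hvq, huv⟩ := heights p q hp hq hpq
    have hp0 : 0 < p := by linarith
    have hq0 : 0 < q := by linarith
    have hF := hR_memLp u p hu hp0 hup AF AF_meas AF_small
    have hG := hR_memLp v q hv hq0 hvq AG AG_meas AG_small
    have hae : ∀ᵐ x ∂mu, ∀ R : ℝ, ∃ᶠ N : ℕ in atTop,
        R ≤ ‖bilin w TT (fun x => ((hR u AF x : ℝ) : ℂ)) (fun x => ((hR v AG x : ℝ) : ℂ)) N x‖ := by
      filter_upwards [diverge_ae u v p q hu hv hp0 hq0 hup hvq huv] with x hx R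
      rw [frequently_atTop]
      intro N₀
      obtain ⟨N, hN, hRN⟩ := hx R N₀
      refine ⟨N, hN, ?_⟩
      have h1 : bilin w TT (fun x => ((hR u AF x : ℝ) : ℂ)) (fun x => ((hR v AG x : ℝ) : ℂ)) N x
          = ((av u v N x : ℝ) : ℂ) := by
        unfold bilin av w
        push_cast
        rfl
      rw [h1, Complex.norm_real]
      exact hRN.trans (Real.le_norm_self _)
    refine ⟨⟨hR u AF, hR v AG, hR_nonneg u AF, hR_nonneg v AG, hF, hG, hae⟩, ?_⟩
    intro f₀ g₀ hf₀ hg₀ ε hε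
    exact dense_of_one mu w TT _ _ _ _
      (Complex.measurable_ofReal.comp (HH_meas u AF AF_meas).ennreal_toReal)
      (Complex.measurable_ofReal.comp (HH_meas v AG AG_meas).ennreal_toReal)
      hF.ofReal hG.ofReal hae f₀ g₀ hf₀ hg₀ ε hε

end Pool.Agent.Results.MP_365e45_an.DenseDivergence
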